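import Mathlib

set_option autoImplicit false

/-!
# Multi-stack machines need time at least linear in the length of the input

A halting computation of a `Turing.FinTM2` (Mathlib) has to empty its input stack. One step of the
machine executes one statement, with a bounded number of pops.
-/

namespace Pool.Agent.Zk93

open Turing Turing.TM2

section

variable {K : Type} [DecidableEq K] {Γ : K → Type} {Λ σ : Type}

/-- An upper bound for the number of pops in an execution of a statement. -/
def pops : Stmt Γ Λ σ → ℕ
  | Stmt.push _ _ q => pops q
  | Stmt.peek _ _ q => pops q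
  | Stmt.pop _ _ q => pops q + 1
  | Stmt.load _ q => pops q
  | Stmt.branch _ q₁ q₂ => pops q₁ + pops q₂
  | Stmt.goto _ => 0
  | Stmt.halt => 0

theorem length_stepAux (q : Stmt Γ Λ σ) : ∀ (v : σ) (S : ∀ k, List (Γ k)) (k : K),
    (S k).length ≤ ((stepAux q v S).stk k).length + pops q := by
  induction q with
  | push k' f q ih =>
    intro v S k
    simp only [stepAux, pops]
    refine le_trans ?_ (ih v _ k)
    by_cases h : k = k'
    · subst h; simp
    · rw [Function.update_of_ne h]
  | peek k' f q ih =>
    intro v S k
    simp only [stepAux, pops]
    exact ih _ _ k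
  | pop k' f q ih =>
    intro v S k
    simp only [stepAux, pops]
    have h1 := ih (f v (S k').head?) (Function.update S k' (S k').tail) k
    by_cases h : k = k'
    · subst h
      rw [Function.update_self, List.length_tail] at h1
      omega
    · rw [Function.update_of_ne h] at h1
      omega
  | load f q ih =>
    intro v S k
    simp only [stepAux, pops]
    exact ih _ _ k
  | branch f q₁ q₂ ih₁ ih₂ =>
    intro v S k
    simp only [stepAux, pops]
    have h1 := ih₁ v S k
    have h2 := ih₂ v S k
    cases f v
    · simp only [cond_false]; omega
    · simp only [cond_true]; omega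
  | goto f => intro v S k; simp [stepAux, pops]
  | halt => intro v S k; simp [stepAux, pops]

end

theorem length_iterate (tm : FinTM2) {D : ℕ} (hD : ∀ l, pops (tm.m l) ≤ D) (k : tm.K) :
    ∀ (t : ℕ) (c c' : tm.Cfg), (flip bind tm.step)^[t] (some c) = some c' →
      (c.stk k).length ≤ (c'.stk k).length + t * D := by
  have hnone : ∀ t : ℕ, (flip bind tm.step)^[t] (none : Option tm.Cfg) = none := by
    intro t
    induction t with
    | zero => rfl
    | succ t ih => rw [Function.iterate_succ_apply]; exact ih
  intro t
  induction t with
  | zero =>
    intro c c' h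
    simp only [Function.iterate_zero, id, Option.some.injEq] at h
    subst h; simp
  | succ t ih =>
    intro c c' h
    rw [Function.iterate_succ_apply] at h
    have e : (flip bind tm.step) (some c) = tm.step c := rfl
    rw [e] at h
    obtain ⟨l, v, S⟩ := c
    cases l with
    | none =>
      have : tm.step ⟨none, v, S⟩ = none := rfl
      rw [this, hnone] at h
      exact absurd h (by simp)
    | some l =>
      have e2 : tm.step ⟨some l, v, S⟩ = some (stepAux (tm.m l) v S) := rfl
      rw [e2] at h
      have h1 := ih _ _ h
      have h2 : (S k).length ≤ ((stepAux (tm.m l) v S).stk k).length + pops (tm.m l) :=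
        length_stepAux (tm.m l) v S k
      have h3 := hD l
      have h4 : (t + 1) * D = t * D + D := by ring
      show (S k).length ≤ _
      omega

/-- The number of steps of a halting computation, times a constant of the machine, is at least the
length of the input minus the length of the output. -/
theorem length_le_of_outputs (tm : FinTM2) : ∃ D : ℕ, ∀ (x : List (tm.Γ tm.k₀))
    (y : List (tm.Γ tm.k₁)) (t : ℕ), TM2OutputsInTime tm x (some y) t →
      x.length ≤ y.length + t * D := by
  classical
  have := tm.ΛFin
  refine ⟨∑ l, pops (tm.m l), fun x y t h => ?_⟩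
  obtain ⟨⟨steps, hs⟩, hle⟩ := h
  have h1 := length_iterate tm (D := ∑ l, pops (tm.m l))
    (fun l => Finset.single_le_sum (f := fun l => pops (tm.m l)) (fun _ _ => Nat.zero_le _)
      (Finset.mem_univ l)) tm.k₀ steps _ _ hs
  have h2 : ((initList tm x).stk tm.k₀).length = x.length := by
    simp [initList]
  have h3 : ∀ k, ((haltList tm y).stk k).length ≤ y.length := by
    intro k
    unfold haltList
    by_cases h : k = tm.k₁
    · subst h
      simp
    · simp [h]
  replace h3 := h3 tm.k₀
  rw [h2] at h1
  have h4 : steps * (∑ l, pops (tm.m l)) ≤ t * ∑ l, pops (tm.m l) := Nat.mul_le_mul_right _ hle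
  omega

end Pool.Agent.Zk93
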