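import Mathlib

/-!
# Sums of two numbers with partial quotients tending to infinity

The two-sided continued fraction algorithm.  A relation `r x y + p x + s y = q` with
`p s + q r = 1` between two numbers is transformed by `x = 1 / (a + x')`, `y = 1 / (b + y')` into
the relation of the same kind with `r' = q`, `p' = q b - s`, `s' = q a - p`, `q' = (1 - p' s') / q`.
-/

set_option autoImplicit false

namespace Pool.Agent.Zk93.SumCF

open Filter Topology

/-- The Gauss map. -/
noncomputable def G (y : ℝ) : ℝ := Int.fract (1 / y)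

/-- A number in `(0, 1)` whose partial quotients tend to infinity. -/
def Good (x : ℝ) : Prop :=
  x ∈ Set.Ioo (0 : ℝ) 1 ∧ Tendsto (fun n : ℕ => ⌊1 / (G^[n] x)⌋) atTop atTop

theorem G_cons {x : ℝ} (h0 : 0 ≤ x) (h1 : x < 1) (a : ℤ) : G (1 / (a + x)) = x := by
  unfold G
  rw [one_div_one_div, Int.fract_intCast_add, Int.fract_eq_self.2 ⟨h0, h1⟩]

theorem good_cons {x : ℝ} (hx : Good x) {a : ℤ} (ha : 1 ≤ a) : Good (1 / (a + x)) := by
  obtain ⟨⟨h0, h1⟩, ht⟩ := hx
  have ha' : (1 : ℝ) ≤ a := by exact_mod_cast ha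
  refine ⟨⟨by positivity, ?_⟩, ?_⟩
  · rw [div_lt_one (by linarith)]
    linarith
  · rw [← tendsto_add_atTop_iff_nat 1]
    refine ht.congr fun n => ?_
    rw [Function.iterate_succ_apply, G_cons h0.le h1]

theorem good_of_tails {x : ℕ → ℝ} {a : ℕ → ℤ} (h0 : ∀ n, 0 < x n) (h1 : ∀ n, x n < 1)
    (hx : ∀ n, x n = 1 / (a n + x (n + 1))) (ha : Tendsto a atTop atTop) : Good (x 0) := by
  have hG : ∀ n, G^[n] (x 0) = x n := by
    intro n
    induction n with
    | zero => rfl
    | succ n ih =>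
      rw [Function.iterate_succ_apply', ih]
      conv_lhs => rw [hx n]
      exact G_cons (h0 _).le (h1 _) _
  refine ⟨⟨h0 0, h1 0⟩, ha.congr fun n => ?_⟩
  rw [hG n, hx n, one_div_one_div]
  rw [Int.floor_intCast_add, Int.floor_eq_zero_iff.2 ⟨(h0 _).le, h1 _⟩, add_zero]

theorem exists_tails_fin (N : ℕ) : ∀ a : ℕ → ℤ, (∀ n, 1 ≤ a n) →
    ∃ x : ℕ → ℝ, (∀ n, x n ∈ Set.Icc (0 : ℝ) 1) ∧ ∀ n < N, x n * (a n + x (n + 1)) = 1 := by
  induction N with
  | zero =>
    intro a _
    exact ⟨fun _ => 0, fun n => by simp, fun n hn => by omega⟩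
  | succ N ih =>
    intro a ha
    obtain ⟨x, hx, hx'⟩ := ih (fun n => a (n + 1)) (fun n => ha _)
    have h0 := (hx 0).1
    have ha0 : (1 : ℝ) ≤ a 0 := by exact_mod_cast ha 0
    have hpos : 0 < (a 0 : ℝ) + x 0 := by linarith
    refine ⟨fun n => Nat.casesOn n (1 / (a 0 + x 0)) x, ?_, ?_⟩
    · intro n
      cases n with
      | zero =>
        refine ⟨?_, ?_⟩
        · show 0 ≤ 1 / ((a 0 : ℝ) + x 0)
          positivity
        · show 1 / ((a 0 : ℝ) + x 0) ≤ 1
          rw [div_le_one hpos]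
          linarith
      | succ n => exact hx n
    · intro n hn
      cases n with
      | zero =>
        show 1 / ((a 0 : ℝ) + x 0) * ((a 0 : ℝ) + x 0) = 1
        field_simp
      | succ n => exact hx' n (by omega)

theorem exists_tails (a : ℕ → ℤ) (ha : ∀ n, 1 ≤ a n) :
    ∃ x : ℕ → ℝ, (∀ n, 0 < x n) ∧ (∀ n, x n < 1) ∧ ∀ n, x n = 1 / (a n + x (n + 1)) := by
  let K : ℕ → Set (ℕ → ℝ) := fun N =>
    {x | (∀ n, x n ∈ Set.Icc (0 : ℝ) 1) ∧ ∀ n < N, x n * (a n + x (n + 1)) = 1}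
  have hcl : ∀ N, IsClosed (K N) := by
    intro N
    have e : K N = (⋂ n, {x : ℕ → ℝ | x n ∈ Set.Icc (0 : ℝ) 1}) ∩
        ⋂ n, ⋂ (_ : n < N), {x : ℕ → ℝ | x n * (a n + x (n + 1)) = 1} := by
      ext x
      simp [K]
    rw [e]
    refine IsClosed.inter (isClosed_iInter fun n => ?_)
      (isClosed_iInter fun n => isClosed_iInter fun _ => ?_)
    · exact isClosed_Icc.preimage (continuous_apply n)
    · exact isClosed_eq (by fun_prop) continuous_const
  have hne : (⋂ N, K N).Nonempty := by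
    refine IsCompact.nonempty_iInter_of_sequence_nonempty_isCompact_isClosed K ?_ ?_ ?_ hcl
    · intro N x hx
      exact ⟨hx.1, fun n hn => hx.2 n (by omega)⟩
    · intro N
      obtain ⟨x, hx⟩ := exists_tails_fin N a ha
      exact ⟨x, hx⟩
    · have hc : IsCompact (Set.pi Set.univ fun _ : ℕ => Set.Icc (0 : ℝ) 1) :=
        isCompact_univ_pi fun _ => isCompact_Icc
      refine hc.of_isClosed_subset (hcl 0) ?_
      intro x hx n _
      exact hx.1 n
  obtain ⟨x, hx⟩ := hne
  rw [Set.mem_iInter] at hx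
  have h01 : ∀ n, x n ∈ Set.Icc (0 : ℝ) 1 := fun n => (hx 0).1 n
  have hrec : ∀ n, x n * (a n + x (n + 1)) = 1 := fun n => (hx (n + 1)).2 n (by omega)
  have ha' : ∀ n, (1 : ℝ) ≤ a n := fun n => by exact_mod_cast ha n
  have hden : ∀ n, 0 < (a n : ℝ) + x (n + 1) := fun n => by
    have := (h01 (n + 1)).1
    have := ha' n
    linarith
  have heq : ∀ n, x n = 1 / (a n + x (n + 1)) := fun n => by
    rw [eq_div_iff (hden n).ne']
    exact hrec n
  have hpos : ∀ n, 0 < x n := fun n => by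
    rw [heq n]
    exact one_div_pos.2 (hden n)
  refine ⟨x, hpos, fun n => ?_, heq⟩
  rw [heq n, div_lt_one (hden n)]
  have := hpos (n + 1)
  have := ha' n
  linarith


/-! ### The algorithm -/

/-- The relation `r x y + p x + s y = q`. -/
structure St where
  /-- coefficient of `x` -/
  p : ℝ
  /-- constant -/
  q : ℝ
  /-- coefficient of `x y` -/
  r : ℝ
  /-- coefficient of `y` -/
  s : ℝ

namespace St

/-- the next digit of `y` -/
noncomputable def b (z : St) : ℤ := ⌊z.s / z.q⌋ + 1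
/-- the next coefficient of `x` -/
noncomputable def pn (z : St) : ℝ := z.q * z.b - z.s
/-- the next digit of `x` -/
noncomputable def a (z : St) : ℤ := ⌈(1 / z.pn + z.p) / z.q⌉ - 1
/-- the next coefficient of `y` -/
noncomputable def sn (z : St) : ℝ := z.q * z.a - z.p
/-- the next constant -/
noncomputable def qn (z : St) : ℝ := z.r + z.p * z.b + z.s * z.a - z.q * z.a * z.b
/-- the next relation -/
noncomputable def next (z : St) : St := ⟨z.pn, z.qn, z.q, z.sn⟩

/-- admissible relations -/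
structure Ok (z : St) : Prop where
  q0 : 0 < z.q
  q1 : z.q ≤ 1
  qp : z.q ≤ z.p
  s0 : 0 ≤ z.s
  r0 : 0 ≤ z.r
  det : z.p * z.s + z.q * z.r = 1

variable {z : St}

theorem Ok.b_pos (h : z.Ok) : 1 ≤ z.b := by
  have : 0 ≤ ⌊z.s / z.q⌋ := Int.floor_nonneg.2 (div_nonneg h.s0 h.q0.le)
  unfold b
  omega

theorem Ok.pn_pos (h : z.Ok) : 0 < z.pn := by
  have h1 : z.s / z.q < ⌊z.s / z.q⌋ + 1 := Int.lt_floor_add_one _
  rw [div_lt_iff₀ h.q0] at h1
  unfold pn b
  push_cast
  linarith

theorem Ok.pn_le (h : z.Ok) : z.pn ≤ z.q := by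
  have h1 : (⌊z.s / z.q⌋ : ℝ) ≤ z.s / z.q := Int.floor_le _
  rw [le_div_iff₀ h.q0] at h1
  unfold pn b
  push_cast
  linarith

theorem Ok.one_le (h : z.Ok) : 1 ≤ 1 / z.pn := by
  rw [le_div_iff₀ h.pn_pos]
  linarith [h.pn_le, h.q1]

theorem Ok.a_pos (h : z.Ok) : 1 ≤ z.a := by
  have h1 : (1 : ℝ) < (1 / z.pn + z.p) / z.q := by
    rw [lt_div_iff₀ h.q0]
    linarith [h.one_le, h.qp]
  have h2 : (1 : ℤ) < ⌈(1 / z.pn + z.p) / z.q⌉ := by
    rw [Int.lt_ceil]
    exact_mod_cast h1
  unfold a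
  omega

theorem Ok.sn_lt (h : z.Ok) : z.sn < 1 / z.pn := by
  have h1 : (⌈(1 / z.pn + z.p) / z.q⌉ : ℝ) < (1 / z.pn + z.p) / z.q + 1 := Int.ceil_lt_add_one _
  have h2 : (z.a : ℝ) < (1 / z.pn + z.p) / z.q := by
    unfold a
    push_cast
    linarith
  rw [lt_div_iff₀ h.q0] at h2
  unfold sn
  linarith

theorem Ok.le_sn (h : z.Ok) : 1 / z.pn ≤ z.sn + z.q := by
  have h1 : (1 / z.pn + z.p) / z.q ≤ ⌈(1 / z.pn + z.p) / z.q⌉ := Int.le_ceil _
  have h2 : (1 / z.pn + z.p) / z.q ≤ (z.a : ℝ) + 1 := by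
    unfold a
    push_cast
    linarith
  rw [div_le_iff₀ h.q0] at h2
  unfold sn
  linarith

theorem Ok.sn_nonneg (h : z.Ok) : 0 ≤ z.sn := by
  linarith [h.le_sn, h.one_le, h.q1]

theorem Ok.q_mul (h : z.Ok) : z.q * z.qn = 1 - z.pn * z.sn := by
  have := h.det
  unfold qn pn sn
  linear_combination this

theorem Ok.qn_pos (h : z.Ok) : 0 < z.qn := by
  have h1 := h.sn_lt
  rw [lt_div_iff₀ h.pn_pos] at h1
  have h2 := h.q_mul
  have h3 : 0 < z.q * z.qn := by linarith [mul_comm z.pn z.sn]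
  exact (pos_iff_pos_of_mul_pos h3).1 h.q0

theorem Ok.qn_le (h : z.Ok) : z.qn ≤ z.pn := by
  have h1 := h.le_sn
  rw [div_le_iff₀ h.pn_pos] at h1
  have h2 := h.q_mul
  have h3 : z.q * z.qn ≤ z.q * z.pn := by nlinarith
  exact le_of_mul_le_mul_left h3 h.q0

theorem Ok.next (h : z.Ok) : z.next.Ok where
  q0 := h.qn_pos
  q1 := h.qn_le.trans (h.pn_le.trans h.q1)
  qp := h.qn_le
  s0 := h.sn_nonneg
  r0 := h.q0.le
  det := by
    show z.pn * z.sn + z.qn * z.q = 1
    linarith [h.q_mul, mul_comm z.q z.qn]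

/-- the value of the relation -/
def E (z : St) (x y : ℝ) : ℝ := z.r * x * y + z.p * x + z.s * y - z.q

theorem E_next (z : St) {x y x' y' : ℝ} (hx : x * (z.a + x') = 1) (hy : y * (z.b + y') = 1) :
    z.E x y = -(x * y) * z.next.E x' y' := by
  have key : z.E x y * ((z.a + x') * (z.b + y')) = - z.next.E x' y' := by
    have e : z.E x y * ((z.a + x') * (z.b + y')) =
        z.r * (x * (z.a + x')) * (y * (z.b + y')) + z.p * (x * (z.a + x')) * (z.b + y') +
        z.s * (y * (z.b + y')) * (z.a + x') - z.q * ((z.a + x') * (z.b + y')) := by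
      unfold E
      ring
    rw [e, hx, hy]
    unfold E St.next qn pn sn
    ring
  calc z.E x y = z.E x y * ((x * (z.a + x')) * (y * (z.b + y'))) := by rw [hx, hy]; ring
    _ = (x * y) * (z.E x y * ((z.a + x') * (z.b + y'))) := by ring
    _ = -(x * y) * z.next.E x' y' := by rw [key]; ring

theorem pull_back {z : St} (h : z.Ok) {x' y' : ℝ} (hx : Good x') (hy : Good y')
    (hE : z.next.E x' y' = 0) : ∃ x y, Good x ∧ Good y ∧ z.E x y = 0 := by
  refine ⟨1 / (z.a + x'), 1 / (z.b + y'), good_cons hx h.a_pos, good_cons hy h.b_pos, ?_⟩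
  have ha : (1 : ℝ) ≤ z.a := by exact_mod_cast h.a_pos
  have hb : (1 : ℝ) ≤ z.b := by exact_mod_cast h.b_pos
  have h1 : 0 < (z.a : ℝ) + x' := by linarith [hx.1.1]
  have h2 : 0 < (z.b : ℝ) + y' := by linarith [hy.1.1]
  rw [E_next z (x' := x') (y' := y') (by field_simp) (by field_simp), hE, mul_zero]

/-- the sequence of the relations -/
noncomputable def seq (z : St) (n : ℕ) : St := St.next^[n] z

theorem seq_succ (z : St) (n : ℕ) : z.seq (n + 1) = (z.seq n).next :=
  Function.iterate_succ_apply' _ _ _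

theorem seq_ok {z : St} (h : z.Ok) (n : ℕ) : (z.seq n).Ok := by
  induction n with
  | zero => exact h
  | succ n ih =>
    rw [seq_succ]
    exact ih.next

theorem pull_back_seq {z : St} (h : z.Ok) (n : ℕ) : ∀ {x' y' : ℝ}, Good x' → Good y' →
    (z.seq n).E x' y' = 0 → ∃ x y, Good x ∧ Good y ∧ z.E x y = 0 := by
  induction n with
  | zero => exact fun hx hy hE => ⟨_, _, hx, hy, hE⟩
  | succ n ih =>
    intro x' y' hx hy hE
    rw [seq_succ] at hE
    obtain ⟨x, y, hx1, hy1, hE1⟩ := pull_back (seq_ok h n) hx hy hE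
    exact ih hx1 hy1 hE1

theorem q_antitone {z : St} (h : z.Ok) : Antitone fun n => (z.seq n).q := by
  refine antitone_nat_of_succ_le fun n => ?_
  rw [seq_succ]
  exact (seq_ok h n).qn_le.trans (seq_ok h n).pn_le

/-- The first case: the constants tend to zero. -/
theorem case_zero {z : St} (h : z.Ok) (hq : Tendsto (fun n => (z.seq n).q) atTop (𝓝 0)) :
    ∃ x y, Good x ∧ Good y ∧ z.E x y = 0 := by
  have hok := seq_ok h
  -- the digits tend to infinity
  have hinv : Tendsto (fun n => 1 / (z.seq n).q - 1) atTop atTop := by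
    have h1 : Tendsto (fun n => (z.seq n).q) atTop (𝓝[>] 0) :=
      tendsto_nhdsWithin_iff.2 ⟨hq, Eventually.of_forall fun n => (hok n).q0⟩
    have h2 := tendsto_inv_nhdsGT_zero.comp h1
    have h3 := tendsto_atTop_add_const_right atTop (-1 : ℝ) h2
    refine h3.congr fun n => ?_
    simp [sub_eq_add_neg]
  have hsn : ∀ n, 1 / (z.seq n).q - 1 ≤ (z.seq n).sn := by
    intro n
    have h1 := (hok n).le_sn
    have h2 : 1 / (z.seq n).q ≤ 1 / (z.seq n).pn :=
      one_div_le_one_div_of_le (hok n).pn_pos (hok n).pn_le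
    linarith [(hok n).q1]
  have hq1 : ∀ n, 0 ≤ 1 / (z.seq n).q - 1 := by
    intro n
    rw [sub_nonneg, le_div_iff₀ (hok n).q0]
    linarith [(hok n).q1]
  have ha : Tendsto (fun n => (z.seq n).a) atTop atTop := by
    rw [← tendsto_intCast_atTop_iff (R := ℝ)]
    refine tendsto_atTop_mono (fun n => ?_) hinv
    have e : (z.seq n).q * (z.seq n).a = (z.seq n).sn + (z.seq n).p := by
      unfold sn
      ring
    have h1 := hsn n
    have h2 := (hok n).qp
    have h3 := (hok n).q0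
    have h4 := (hok n).q1
    have ha1 : (1 : ℝ) ≤ (z.seq n).a := by exact_mod_cast (hok n).a_pos
    nlinarith
  have hb : Tendsto (fun n => (z.seq n).b) atTop atTop := by
    rw [← tendsto_add_atTop_iff_nat 1, ← tendsto_intCast_atTop_iff (R := ℝ)]
    refine tendsto_atTop_mono (fun n => ?_) hinv
    have e : (z.seq (n + 1)).q * (z.seq (n + 1)).b = (z.seq (n + 1)).pn + (z.seq (n + 1)).s := by
      unfold pn
      ring
    have e2 : (z.seq (n + 1)).s = (z.seq n).sn := by rw [seq_succ]; rfl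
    have h1 := hsn n
    have h3 := (hok (n + 1)).pn_pos
    have h4 := (hok (n + 1)).q1
    have hb1 : (1 : ℝ) ≤ (z.seq (n + 1)).b := by exact_mod_cast (hok (n + 1)).b_pos
    nlinarith
  obtain ⟨x, hx0, hx1, hx⟩ := exists_tails (fun n => (z.seq n).a) (fun n => (hok n).a_pos)
  obtain ⟨y, hy0, hy1, hy⟩ := exists_tails (fun n => (z.seq n).b) (fun n => (hok n).b_pos)
  refine ⟨x 0, y 0, good_of_tails hx0 hx1 hx ha, good_of_tails hy0 hy1 hy hb, ?_⟩
  have ha1 : ∀ n, (1 : ℝ) ≤ (z.seq n).a := fun n => by exact_mod_cast (hok n).a_pos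
  have hb1 : ∀ n, (1 : ℝ) ≤ (z.seq n).b := fun n => by exact_mod_cast (hok n).b_pos
  have hx' : ∀ n, x n * ((z.seq n).a + x (n + 1)) = 1 := fun n => by
    have := hx n
    rwa [eq_div_iff (by linarith [ha1 n, hx0 (n + 1)])] at this
  have hy' : ∀ n, y n * ((z.seq n).b + y (n + 1)) = 1 := fun n => by
    have := hy n
    rwa [eq_div_iff (by linarith [hb1 n, hy0 (n + 1)])] at this
  have hstep : ∀ n, |(z.seq n).E (x n) (y n)| =
      x n * y n * |(z.seq (n + 1)).E (x (n + 1)) (y (n + 1))| := by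
    intro n
    rw [E_next (z.seq n) (hx' n) (hy' n), ← seq_succ, abs_mul, abs_neg,
      abs_of_pos (mul_pos (hx0 n) (hy0 n))]
  have hmono : ∀ n, |z.E (x 0) (y 0)| ≤ |(z.seq n).E (x n) (y n)| := by
    intro n
    induction n with
    | zero => exact le_rfl
    | succ n ih =>
      refine ih.trans ?_
      rw [hstep n]
      have h1 : x n * y n ≤ 1 := mul_le_one₀ (hx1 n).le (hy0 n).le (hy1 n).le
      exact mul_le_of_le_one_left (abs_nonneg _) h1
  have hbd : ∀ n, |(z.seq (n + 1)).E (x (n + 1)) (y (n + 1))| ≤ 4 := by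
    intro n
    have hs := (hok (n + 1))
    have er : (z.seq (n + 1)).r = (z.seq n).q := by rw [seq_succ]; rfl
    have ep : (z.seq (n + 1)).p = (z.seq n).pn := by rw [seq_succ]; rfl
    have h1 : (z.seq (n + 1)).r ≤ 1 := by rw [er]; exact (hok n).q1
    have h2 : (z.seq (n + 1)).p ≤ 1 := by rw [ep]; exact (hok n).pn_le.trans (hok n).q1
    have h3 : (z.seq (n + 1)).s * y (n + 1) ≤ (z.seq (n + 1)).q := by
      have h4 : (z.seq (n + 1)).s ≤ (z.seq (n + 1)).q * (z.seq (n + 1)).b := by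
        have := hs.pn_pos
        unfold pn at this
        linarith
      have h5 : y (n + 1) * (z.seq (n + 1)).b ≤ 1 := by
        nlinarith [hy' (n + 1), hy0 (n + 1), hy0 (n + 2)]
      calc (z.seq (n + 1)).s * y (n + 1) ≤ (z.seq (n + 1)).q * (z.seq (n + 1)).b * y (n + 1) :=
            mul_le_mul_of_nonneg_right h4 (hy0 _).le
        _ = (z.seq (n + 1)).q * (y (n + 1) * (z.seq (n + 1)).b) := by ring
        _ ≤ (z.seq (n + 1)).q * 1 := mul_le_mul_of_nonneg_left h5 hs.q0.le
        _ = (z.seq (n + 1)).q := mul_one _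
    have h6 : 0 ≤ (z.seq (n + 1)).s * y (n + 1) := mul_nonneg hs.s0 (hy0 _).le
    have h7 : (z.seq (n + 1)).r * x (n + 1) * y (n + 1) ≤ 1 := by
      have : x (n + 1) * y (n + 1) ≤ 1 := mul_le_one₀ (hx1 _).le (hy0 _).le (hy1 _).le
      have h8 : 0 ≤ x (n + 1) * y (n + 1) := mul_nonneg (hx0 _).le (hy0 _).le
      have := hs.r0
      rw [mul_assoc]
      exact mul_le_one₀ h1 h8 (by linarith)
    have h8 : 0 ≤ (z.seq (n + 1)).r * x (n + 1) * y (n + 1) :=
      mul_nonneg (mul_nonneg hs.r0 (hx0 _).le) (hy0 _).le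
    have h9 : 0 ≤ (z.seq (n + 1)).p * x (n + 1) :=
      mul_nonneg (hs.q0.le.trans hs.qp) (hx0 _).le
    have h10 : (z.seq (n + 1)).p * x (n + 1) ≤ 1 := mul_le_one₀ h2 (hx0 _).le (hx1 _).le
    unfold E
    rw [abs_le]
    constructor <;> linarith [hs.q0, hs.q1]
  have hle : ∀ n, |z.E (x 0) (y 0)| ≤ 4 * x n := by
    intro n
    refine (hmono n).trans ?_
    rw [hstep n]
    have h1 := hbd n
    have h2 := hy1 n
    have h3 := hx0 n
    have h4 := hy0 n
    have h5 : x n * y n ≤ x n := mul_le_of_le_one_right h3.le h2.le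
    have h6 : 0 ≤ |(z.seq (n + 1)).E (x (n + 1)) (y (n + 1))| := abs_nonneg _
    calc x n * y n * |(z.seq (n + 1)).E (x (n + 1)) (y (n + 1))| ≤ x n * 4 :=
          mul_le_mul h5 h1 h6 h3.le
      _ = 4 * x n := mul_comm _ _
  have hx_lim : Tendsto x atTop (𝓝 0) := by
    have h1 : Tendsto (fun n => ((z.seq n).a : ℝ)⁻¹) atTop (𝓝 0) :=
      tendsto_inv_atTop_zero.comp ((tendsto_intCast_atTop_iff (R := ℝ)).2 ha)
    refine squeeze_zero (fun n => (hx0 n).le) (fun n => ?_) h1
    rw [hx n, ← one_div]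
    exact one_div_le_one_div_of_le (by linarith [ha1 n]) (by linarith [hx0 (n + 1)])
  have hlim : Tendsto (fun n => 4 * x n) atTop (𝓝 0) := by
    simpa using hx_lim.const_mul 4
  have := ge_of_tendsto' hlim hle
  exact abs_eq_zero.1 (le_antisymm this (abs_nonneg _))

/-- Integers which converge are eventually constant. -/
theorem int_eventually_const {f : ℕ → ℤ} {l : ℝ} (h : Tendsto (fun n => (f n : ℝ)) atTop (𝓝 l)) :
    ∃ N : ℤ, (N : ℝ) = l ∧ ∀ᶠ n in atTop, f n = N := by
  have h1 : ∀ᶠ n in atTop, |(f n : ℝ) - l| < 1 / 2 := by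
    have := Metric.tendsto_nhds.1 h (1 / 2) (by norm_num)
    simpa [Real.dist_eq] using this
  obtain ⟨n0, h0⟩ := eventually_atTop.1 h1
  have hc : ∀ n ≥ n0, f n = f n0 := by
    intro n hn
    have e1 := abs_lt.1 (h0 n hn)
    have e2 := abs_lt.1 (h0 n0 le_rfl)
    have e3 : (f n : ℝ) < f n0 + 1 := by linarith
    have e4 : (f n0 : ℝ) < f n + 1 := by linarith
    have e5 : f n < f n0 + 1 := by exact_mod_cast e3
    have e6 : f n0 < f n + 1 := by exact_mod_cast e4
    omega
  refine ⟨f n0, ?_, eventually_atTop.2 ⟨n0, hc⟩⟩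
  refine tendsto_nhds_unique (tendsto_const_nhds.congr' ?_) h
  filter_upwards [eventually_ge_atTop n0] with n hn
  rw [hc n hn]

/-- The solutions of the final relation of the second case. -/
theorem final_relation {N : ℤ} (hN : 1 ≤ N) :
    ∃ x y : ℝ, Good x ∧ Good y ∧ x * y + x + (N - 1) * y = 1 := by
  have hN' : (1 : ℝ) ≤ N := by exact_mod_cast hN
  obtain ⟨Y, hY0, hY1, hY⟩ := exists_tails (fun n => N * (n + 1)) (fun n => by nlinarith)
  have hlin : Tendsto (fun n : ℕ => N * ((n : ℤ) + 1)) atTop atTop := by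
    refine tendsto_atTop_mono (fun n => ?_) tendsto_natCast_atTop_atTop
    nlinarith
  have hYg : Good (Y 0) := good_of_tails hY0 hY1 hY hlin
  let d : ℕ → ℤ := fun n => if Even n then N ^ 2 * (n + 1) else n + 1
  let W : ℕ → ℝ := fun n => if Even n then Y n / N else N * Y n
  have hd1 : ∀ n, 1 ≤ d n := by
    intro n
    by_cases hn : Even n
    · simp only [d, if_pos hn]
      have : 1 ≤ N ^ 2 := one_le_pow₀ hN
      nlinarith
    · simp only [d, if_neg hn]
      omega
  have hW0 : ∀ n, 0 < W n := by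
    intro n
    have := hY0 n
    by_cases hn : Even n
    · simp only [W, if_pos hn]
      positivity
    · simp only [W, if_neg hn]
      positivity
  have hW : ∀ n, W n = 1 / (d n + W (n + 1)) := by
    intro n
    have h0 := hY0 (n + 1)
    have e := hY n
    have hn0 : (0 : ℝ) ≤ n := Nat.cast_nonneg n
    by_cases hn : Even n
    · have hn' : ¬ Even (n + 1) := by rwa [Nat.even_add_one, not_not]
      simp only [W, d, if_pos hn, if_neg hn']
      rw [e]
      push_cast
      have : (0 : ℝ) < N * (n + 1) + Y (n + 1) := by positivity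
      rw [div_div, one_div, one_div]
      congr 1
      ring
    · have hn' : Even (n + 1) := by rwa [Nat.even_add_one]
      simp only [W, d, if_neg hn, if_pos hn']
      rw [e]
      push_cast
      have : (0 : ℝ) < N * (n + 1) + Y (n + 1) := by positivity
      have h2 : (0 : ℝ) < (n + 1) + Y (n + 1) / N := by positivity
      rw [mul_one_div, div_eq_div_iff this.ne' h2.ne']
      field_simp
  have hW1 : ∀ n, W n < 1 := by
    intro n
    have h1 : (1 : ℝ) ≤ d n := by exact_mod_cast hd1 n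
    rw [hW n, div_lt_one (by linarith [hW0 (n + 1)])]
    linarith [hW0 (n + 1)]
  have hd : Tendsto d atTop atTop := by
    refine tendsto_atTop_mono (fun n => ?_) (tendsto_natCast_atTop_atTop (R := ℤ))
    by_cases hn : Even n
    · simp only [d, if_pos hn]
      have : 1 ≤ N ^ 2 := one_le_pow₀ hN
      nlinarith
    · simp only [d, if_neg hn]
      omega
  have hWg : Good (W 0) := good_of_tails hW0 hW1 hW hd
  have hW00 : W 0 = Y 0 / N := by simp [W]
  have hx1 : Good (1 / ((1 : ℤ) + W 0)) := good_cons hWg le_rfl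
  have hx2 : Good (1 / ((1 : ℤ) + 1 / ((1 : ℤ) + W 0))) := good_cons hx1 le_rfl
  have hy : Good (1 / ((2 * N - 1 : ℤ) + Y 0)) := good_cons hYg (by omega)
  refine ⟨_, _, hx2, hy, ?_⟩
  have h0 := hY0 0
  rw [hW00]
  push_cast
  obtain ⟨w, hw⟩ : ∃ w, w = Y 0 / N := ⟨_, rfl⟩
  have hw0 : 0 < w := by rw [hw]; positivity
  have hYw : Y 0 = N * w := by rw [hw]; field_simp
  rw [← hw, hYw]
  have h1 : (0 : ℝ) < 2 * N - 1 + N * w := by
    have : 0 < N * w := by positivity
    linarith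
  have e1 : (1 : ℝ) / (1 + 1 / (1 + w)) = (1 + w) / (2 + w) := by
    have h2 : (0 : ℝ) < 1 + w := by linarith
    have h3 : (0 : ℝ) < 2 + w := by linarith
    have h4 : (0 : ℝ) < 1 + 1 / (1 + w) := by positivity
    rw [div_eq_div_iff h4.ne' h3.ne']
    field_simp
    ring
  rw [e1]
  have h3 : (0 : ℝ) < 2 + w := by linarith
  obtain ⟨D, hD⟩ : ∃ D, D = 2 * (N : ℝ) - 1 + N * w := ⟨_, rfl⟩
  rw [← hD]
  have hD0 : D ≠ 0 := by rw [hD]; exact h1.ne'
  field_simp
  rw [hD]
  ring

/-- The second case: the constants do not tend to zero. -/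
theorem case_pos {z : St} (h : z.Ok) (hq : ¬ Tendsto (fun n => (z.seq n).q) atTop (𝓝 0)) :
    ∃ x y, Good x ∧ Good y ∧ z.E x y = 0 := by
  have hok := seq_ok h
  have hanti := q_antitone h
  -- the limit
  obtain ⟨L, hL⟩ : ∃ L, Tendsto (fun n => (z.seq n).q) atTop (𝓝 L) := by
    refine ⟨_, tendsto_atTop_ciInf hanti ⟨0, ?_⟩⟩
    rintro _ ⟨n, rfl⟩
    exact (hok n).q0.le
  have hL0 : 0 ≤ L := ge_of_tendsto' hL fun n => (hok n).q0.le
  have hLpos : 0 < L := by
    rcases hL0.eq_or_lt with e | e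
    · exact absurd (e ▸ hL) hq
    · exact e
  have hq' : Tendsto (fun n => (z.seq (n + 1)).q) atTop (𝓝 L) :=
    (tendsto_add_atTop_iff_nat 1).2 hL
  have ep : ∀ n, (z.seq (n + 1)).p = (z.seq n).pn := fun n => by rw [seq_succ]; rfl
  have es : ∀ n, (z.seq (n + 1)).s = (z.seq n).sn := fun n => by rw [seq_succ]; rfl
  have er : ∀ n, (z.seq (n + 1)).r = (z.seq n).q := fun n => by rw [seq_succ]; rfl
  have eq' : ∀ n, (z.seq (n + 1)).q = (z.seq n).qn := fun n => by rw [seq_succ]; rfl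
  have hpn : Tendsto (fun n => (z.seq n).pn) atTop (𝓝 L) := by
    refine tendsto_of_tendsto_of_tendsto_of_le_of_le hq' hL (fun n => ?_) (fun n => (hok n).pn_le)
    show (z.seq (n + 1)).q ≤ (z.seq n).pn
    rw [eq']
    exact (hok n).qn_le
  have hp : Tendsto (fun n => (z.seq n).p) atTop (𝓝 L) := by
    rw [← tendsto_add_atTop_iff_nat 1]
    exact hpn.congr fun n => (ep n).symm
  have hsn : Tendsto (fun n => (z.seq n).sn) atTop (𝓝 ((1 - L * L) / L)) := by
    have h1 : Tendsto (fun n => (1 - (z.seq n).q * (z.seq (n + 1)).q) / (z.seq n).pn) atTop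
        (𝓝 ((1 - L * L) / L)) :=
      (tendsto_const_nhds.sub (hL.mul hq')).div hpn hLpos.ne'
    refine h1.congr fun n => ?_
    rw [eq', (hok n).q_mul]
    have := (hok n).pn_pos
    field_simp
    ring
  have hs : Tendsto (fun n => (z.seq n).s) atTop (𝓝 ((1 - L * L) / L)) := by
    rw [← tendsto_add_atTop_iff_nat 1]
    exact hsn.congr fun n => (es n).symm
  have hlim : ((1 - L * L) / L + L) / L = 1 / L ^ 2 := by
    field_simp
    ring
  have hb : Tendsto (fun n => ((z.seq n).b : ℝ)) atTop (𝓝 (1 / L ^ 2)) := by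
    rw [← hlim]
    refine ((hs.add hpn).div hL hLpos.ne').congr fun n => ?_
    have hq0 := (hok n).q0.ne'
    show ((z.seq n).s + (z.seq n).pn) / (z.seq n).q = (z.seq n).b
    unfold pn
    rw [div_eq_iff hq0]
    ring
  have ha : Tendsto (fun n => ((z.seq n).a : ℝ)) atTop (𝓝 (1 / L ^ 2)) := by
    rw [← hlim]
    refine ((hsn.add hp).div hL hLpos.ne').congr fun n => ?_
    have hq0 := (hok n).q0.ne'
    show ((z.seq n).sn + (z.seq n).p) / (z.seq n).q = (z.seq n).a
    unfold sn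
    rw [div_eq_iff hq0]
    ring
  obtain ⟨N, hN, hN'⟩ := int_eventually_const hb
  obtain ⟨M, hM, hM'⟩ := int_eventually_const ha
  have hMN : M = N := by exact_mod_cast hM.trans hN.symm
  subst hMN
  obtain ⟨n0, hn0⟩ := eventually_atTop.1 (hN'.and hM')
  have hM1 : 1 ≤ M := by
    rw [← (hn0 n0 le_rfl).1]
    exact (hok n0).b_pos
  have hM1' : (1 : ℝ) ≤ M := by exact_mod_cast hM1
  -- the constants are eventually constant
  have hconst : ∀ n ≥ n0, (z.seq (n + 2)).q = (z.seq (n + 1)).q := by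
    intro n hn
    have hb1 := (hn0 (n + 1) (by omega)).1
    have ha1 := (hn0 (n + 1) (by omega)).2
    have hb2 := (hn0 (n + 2) (by omega)).1
    have ha2 := (hn0 (n + 2) (by omega)).2
    have e1 : (z.seq (n + 2)).q = (z.seq (n + 1)).r + (z.seq (n + 1)).p * M + (z.seq (n + 1)).s * M
        - (z.seq (n + 1)).q * M * M := by
      rw [eq' (n + 1)]
      unfold qn
      rw [hb1, ha1]
    have e2 : (z.seq (n + 3)).q = (z.seq (n + 2)).r + (z.seq (n + 2)).p * M + (z.seq (n + 2)).s * M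
        - (z.seq (n + 2)).q * M * M := by
      rw [eq' (n + 2)]
      unfold qn
      rw [hb2, ha2]
    have e3 : (z.seq (n + 2)).p = (z.seq (n + 1)).q * M - (z.seq (n + 1)).s := by
      rw [ep (n + 1)]
      unfold pn
      rw [hb1]
    have e4 : (z.seq (n + 2)).s = (z.seq (n + 1)).q * M - (z.seq (n + 1)).p := by
      rw [es (n + 1)]
      unfold sn
      rw [ha1]
    have e5 := er (n + 1)
    have e6 := er n
    have m1 : (z.seq (n + 1)).q ≤ (z.seq n).q := hanti (Nat.le_succ n)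
    have m2 : (z.seq (n + 2)).q ≤ (z.seq (n + 1)).q := hanti (Nat.le_succ (n + 1))
    have m3 : (z.seq (n + 3)).q ≤ (z.seq (n + 2)).q := hanti (Nat.le_succ (n + 2))
    have key : (z.seq (n + 3)).q + (z.seq (n + 2)).q - (z.seq (n + 1)).q - (z.seq n).q =
        M * M * ((z.seq (n + 1)).q - (z.seq (n + 2)).q) := by
      rw [e2, e3, e4]
      have e1' := e1
      rw [e6] at e1'
      rw [show (z.seq (n + 2)).r = (z.seq (n + 1)).q from e5]
      linear_combination e1'
    have h1 : M * M * ((z.seq (n + 1)).q - (z.seq (n + 2)).q) ≤ 0 := by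
      rw [← key]
      linarith
    have h2 : (0 : ℝ) < M * M := by positivity
    have h3 : (z.seq (n + 1)).q - (z.seq (n + 2)).q ≤ 0 := by
      by_contra hc
      push Not at hc
      have := mul_pos h2 hc
      linarith
    linarith
  -- the final relation
  obtain ⟨x, y, hx, hy, hxy⟩ := final_relation hM1
  refine pull_back_seq h (n0 + 2) hx hy ?_
  have c1 := hconst n0 le_rfl
  have c2 : (z.seq (n0 + 3)).q = (z.seq (n0 + 2)).q := hconst (n0 + 1) (by omega)
  have p1 : (z.seq (n0 + 2)).p = (z.seq (n0 + 2)).q := by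
    refine le_antisymm ?_ (hok _).qp
    rw [ep (n0 + 1), c1]
    exact (hok _).pn_le
  have p2 : (z.seq (n0 + 3)).p = (z.seq (n0 + 2)).q := by
    refine le_antisymm ?_ ?_
    · rw [ep (n0 + 2)]
      exact (hok _).pn_le
    · rw [← c2]
      exact (hok _).qp
  have s1 : (z.seq (n0 + 2)).s = (M - 1) * (z.seq (n0 + 2)).q := by
    have e3 : (z.seq (n0 + 3)).p = (z.seq (n0 + 2)).q * M - (z.seq (n0 + 2)).s := by
      rw [ep (n0 + 2)]
      unfold pn
      rw [(hn0 (n0 + 2) (by omega)).1]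
    rw [p2] at e3
    linear_combination e3
  have r1 : (z.seq (n0 + 2)).r = (z.seq (n0 + 2)).q := by
    rw [er (n0 + 1), c1]
  unfold E
  rw [p1, s1, r1]
  linear_combination (z.seq (n0 + 2)).q * hxy

end St

theorem main (t : ℝ) (h0 : 0 < t) (h1 : t ≤ 1) : ∃ x y, Good x ∧ Good y ∧ t = x + y := by
  have hok : (St.mk 1 t 0 1).Ok := ⟨h0, h1, h1, zero_le_one, le_rfl, by norm_num⟩
  have : ∃ x y, Good x ∧ Good y ∧ (St.mk 1 t 0 1).E x y = 0 := by
    by_cases hq : Tendsto (fun n => ((St.mk 1 t 0 1).seq n).q) atTop (𝓝 0)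
    · exact St.case_zero hok hq
    · exact St.case_pos hok hq
  obtain ⟨x, y, hx, hy, hE⟩ := this
  refine ⟨x, y, hx, hy, ?_⟩
  unfold St.E at hE
  simp only at hE
  linarith

end Pool.Agent.Zk93.SumCF
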